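import Pool.Agent.Y820.LD.F
import Pool.Agent.Y820.LD.S
import Pool.Agent.Y820.LD.G
import Pool.Agent.Y820.LD.V2
import Pool.Agent.Y820.LF.Fin

/-!
# The number of Goldbach representations with one prime in an arbitrary dense set, after adding powers of `b`

For EVERY set `A` of at least `δ X / log X` primes up to `X` (any subset of the primes of positive relative density)
and ALL integers `n` between `X` and `B X` one can add a sum of at most `K` powers of `b` to `n` such that the number
obtained has at least `c X / log ^ 2 X` representations `p + p'` as a sum of two primes with `p` in `A`, the right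
order of magnitude; more generally, for `n 1, ..., n s` the same with a common prime `p` in `A` and the bound
`c X / log ^ (s + 1) X`. The number `K` depends on `b, s, B, δ` (and on the bound `θ X` for the sums) alone.

Method: the averaged comparison of the primes with the sieve model over random sets of positions with an arbitrary
bounded weight on the primes `p` (the inequality of Cauchy and Schwarz for two Gram matrices, Vaughan's identity, the
sieve, Romanoff's method), for a whole family of systems at once; the family consists of further random sums of `r`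
powers, for which the averaged sieve model is close to its local part at the primes dividing `b (b - 1)` in mean
square over the primes, so that it has a lower bound at nearly all elements of a residue class of `A`. Libraries:
W93, TH892, TH894, H373R2 (starting files), Y820 (helper820; tasks by helper542, helper455, helper77, helper515,
helper484).
-/

set_option autoImplicit false

namespace Pool.Agent.Results.MP_dd84fd_nt.DenseSetsOfPrimesPlusPowers

open Finset

/-- The sum of the powers `b ^ ν` over the exponents `ν` in the list `L` (repetitions are allowed). -/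
def powerSum (b : ℕ) (L : List ℕ) : ℕ := (L.map (fun ν => b ^ ν)).sum

/-- The number of the primes `p` in `A` for which all the numbers `n i - p` are primes; for one number `n` this is the
number of the representations of `n` as an ordered sum of two primes the first of which is in `A`. -/
def goldbach {s : ℕ} (A : Finset ℕ) (n : Fin s → ℕ) : ℕ := (A.filter (fun p => ∀ i, p < n i ∧ (n i - p).Prime)).card

/-- For all `b ≥ 2`, `s`, `B` and `δ, θ > 0` there are `K`, `X₀` and `c > 0` with the following property. Let
`X ≥ X₀`, let `A` be an ARBITRARY set of at least `δ X / log X` primes up to `X`, and let `n 1, ..., n s` be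
ARBITRARY integers with `X < n i ≤ B X`. There are lists `L 1, ..., L s` of at most `K` exponents each such that the
sum of the powers `b ^ ν`, `ν` in `L i`, is at most `θ X`, and there are at least `c X / log ^ (s + 1) X` primes `p`
in `A` such that all the numbers `n i + ∑_{ν ∈ L i} b ^ ν` are of the form `p + p'` with a prime `p'`. For `s = 1` this
is a lower bound of the right order for the number of representations as a sum of two primes, the first in `A`. -/
theorem result : ∀ (b s B : ℕ), 2 ≤ b → ∀ (δ θ : ℝ), 0 < δ → 0 < θ →
    ∃ (K X₀ : ℕ) (c : ℝ), 0 < c ∧ ∀ X : ℕ, X₀ ≤ X → ∀ A : Finset ℕ, (∀ p ∈ A, p.Prime ∧ p ≤ X) → δ * (X / Real.log X) ≤ A.card →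
      ∀ n : Fin s → ℕ, (∀ i, X < n i ∧ n i ≤ B * X) →
        ∃ L : Fin s → List ℕ, (∀ i, (L i).length ≤ K ∧ (powerSum b (L i) : ℝ) ≤ θ * X) ∧
          c * (X / Real.log X ^ (s + 1)) ≤ (goldbach A (fun i => n i + powerSum b (L i)) : ℝ) := by
  intro b s B hb δ θ hδ hθ
  obtain ⟨K, c, X₀, hc, hmain⟩ := Pool.Agent.Y820.LD.denseM (Pool.Agent.Y820.LD.t_TwoP Pool.Agent.Y820.LD.t_GL) Pool.Agent.Y820.LD.t_tr2m
    Pool.Agent.Y820.LF.t_SBF Pool.Agent.Y820.LT.t_R Pool.Agent.Y820.LT.t_P b hb s B δ (min θ 1) hδ (lt_min hθ one_pos) (min_le_right _ _)
  refine ⟨K, X₀, c, hc, fun X hX A hA hAc h hh => ?_⟩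
  obtain ⟨L, hL1, hL2, hL3⟩ := hmain X hX A (fun p hp => mem_Icc.2 ⟨(hA p hp).1.one_le, (hA p hp).2⟩) (fun p hp => (hA p hp).1) hAc h hh
  refine ⟨L, fun i => ⟨hL1 i, (hL2 i).trans (mul_le_mul_of_nonneg_right (min_le_left _ _) (Nat.cast_nonneg _))⟩, ?_⟩
  refine hL3.trans ?_
  unfold goldbach
  have h2 : A.filter (fun p => ∀ i, (h i + Pool.Agent.Y820.LD.pows b (L i) - p).Prime) ⊆
      A.filter (fun p => ∀ i, p < h i + powerSum b (L i) ∧ (h i + powerSum b (L i) - p).Prime) := by
    intro p hp
    rw [mem_filter] at hp ⊢
    refine ⟨hp.1, fun i => ⟨?_, hp.2 i⟩⟩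
    have h3 := (hA p hp.1).2
    have h4 := (hh i).1
    omega
  exact_mod_cast card_le_card h2

end Pool.Agent.Results.MP_dd84fd_nt.DenseSetsOfPrimesPlusPowers
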