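import Pool.Agent.Y883.GJ.Asm
import Pool.Agent.Y883.GJ.Gold
import Pool.Agent.W93.GB4
import Pool.Agent.W93.GB1

/-!
# Goldbach representations of the even integers in the residue classes of EVERY modulus `q ≤ x ^ (1 / 2 - ρ)`

For every modulus `q ≤ x ^ (1 / 2 - ρ)`, without any exceptional moduli, and every residue class `a` modulo
`q` with `gcd(a, q) ≤ (log x)^T`, all but `x / (q (log x)^A)` of the even integers `n ≤ x`, `n ≡ a (mod q)`,
have the number of representations as a sum of two primes which Hardy and Littlewood predict, up to the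
factor `1 ± ε`. (For the other classes and for the moduli up to `x ^ (2 / 3 - ρ)` the same is true if `q` is
not divisible by a member of a very sparse set of integers larger than `(log x)^A`, and the number of other
exceptional moduli `q ≤ X` is at most `X² (log x)^c / x`.)

Proof of the first part (`Y883/GJ`). The exponential sums over the primes, and over the primes minus a sieve
model, in the residue classes modulo `q` are decomposed into characters. By the identity of Vaughan and the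
mean value theorem for the characters modulo `q` the sum over all characters but `(log x)^C` bad ones is small in
mean square, near the fractions with denominator `r q`, `r ≤ (log x)^C`, and the sum over all characters is
small elsewhere. For the primes minus the model the bad characters have a conductor larger than any power of
`log x` (Siegel-Walfisz). Two bad characters `χ₁, χ₂` contribute to the class `a` the Jacobi sum
`∑ χ₁(l) χ₂(a - l)`, which is small compared with `q` if the conductor of one of them is larger than a power of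
`log x` and `gcd(a, q)` is small: no zero-free region for the characters modulo `q` is needed.
The second part is `Y883/T4`.
-/

set_option autoImplicit false

namespace Pool.Agent.Results.MP_dd84fd_nt.EveryModulus

open Pool.Agent.H560R3.GB (g HL)

/-- The even integers `n ≡ a (mod q)` with `0 < n ≤ x` for which the formula of Hardy and Littlewood does
not hold with a relative error of at most `ε`, or for which `g n < n / (2 (log n)²)`, or which are not sums
of two distinct primes. -/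
def exceptional (ε x : ℝ) (q : ℕ) (a : ℤ) : Set ℕ :=
  {n : ℕ | 0 < n ∧ (n : ℝ) ≤ x ∧ 2 ∣ n ∧ (n : ℤ) ≡ a [ZMOD q] ∧
    ¬ (|(g n : ℝ) - HL n| ≤ ε * HL n ∧ (1 / 2) * ((n : ℝ) / Real.log n ^ 2) ≤ g n ∧
      ∃ p p' : ℕ, p.Prime ∧ p'.Prime ∧ p ≠ p' ∧ p + p' = n)}

/-- there are at most `x / (q (log x)^A)` exceptional integers in the residue class `a` modulo `q` -/
def Few (ε : ℝ) (A : ℕ) (x : ℝ) (q : ℕ) (a : ℤ) : Prop :=
  (exceptional ε x q a).Finite ∧ ((exceptional ε x q a).ncard : ℝ) ≤ x / (q * Real.log x ^ A)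

/-- `q` is regular if there are few exceptional integers in every residue class modulo `q` -/
def Regular (ε : ℝ) (A : ℕ) (x : ℝ) (q : ℕ) : Prop := ∀ a : ℤ, Few ε A x q a

theorem HL_nonneg (n : ℕ) : 0 ≤ HL n := by
  have h2 := Pool.Agent.W93.GB.one_le_sing n
  unfold Pool.Agent.H560R3.GB.HL
  positivity

theorem mod_iff (n q : ℕ) (a : ℤ) (hq : 1 ≤ q) (h : (n : ℤ) ≡ a [ZMOD q]) :
    n % q = (a % (q : ℤ)).toNat % q := by
  have hq0 : (q : ℤ) ≠ 0 := by exact_mod_cast (by omega : q ≠ 0)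
  have h1 : 0 ≤ a % (q : ℤ) := Int.emod_nonneg _ hq0
  have h2 : (n : ℤ) % q = a % q := h
  have h3 : ((n % q : ℕ) : ℤ) = ((a % (q : ℤ)).toNat : ℤ) := by
    rw [Int.toNat_of_nonneg h1, ← h2]
    push_cast
    rfl
  have h4 : n % q = (a % (q : ℤ)).toNat := by exact_mod_cast h3
  rw [← h4, Nat.mod_mod]

/-- For all `ε, ρ > 0`, `A` and `T` there is `c` such that for all sufficiently large real `x`: (1) for EVERY
integer `1 ≤ q ≤ x ^ (1 / 2 - ρ)` and every integer `a` with `gcd(a, q) ≤ (log x)^T` there are at most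
`x / (q (log x)^A)` exceptional integers `n ≤ x`, `n ≡ a (mod q)`; (2) there is a finite set `D` of integers,
all of them larger than `(log x)^A`, with at most `y ^ ρ` members up to `y` for every `y ≥ 1`, such that all
positive integers `q ≤ x ^ (2 / 3 - ρ)` that are not divisible by a member of `D` are regular, and for every
`X` with `1 ≤ X ≤ x` at most `X² (log x)^c / x` positive integers `q ≤ X` that are not divisible by a member
of `D` are not regular. -/
theorem result (ε ρ : ℝ) (hε : 0 < ε) (hρ : 0 < ρ) (A T : ℕ) :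
    ∃ (c : ℕ) (x₀ : ℝ), ∀ x : ℝ, x₀ ≤ x →
      (∀ q : ℕ, 1 ≤ q → (q : ℝ) ≤ x ^ (1 / 2 - ρ) → ∀ a : ℤ, (Int.gcd a q : ℝ) ≤ Real.log x ^ T →
        Few ε A x q a) ∧
      ∃ D : Finset ℕ,
        (∀ d ∈ D, Real.log x ^ A < (d : ℝ)) ∧
        (∀ y : ℝ, 1 ≤ y → ((D.filter (fun d : ℕ => (d : ℝ) ≤ y)).card : ℝ) ≤ y ^ ρ) ∧
        (∀ q : ℕ, 1 ≤ q → (q : ℝ) ≤ x ^ (2 / 3 - ρ) → (∀ d ∈ D, ¬ d ∣ q) → Regular ε A x q) ∧
        ∀ X : ℝ, 1 ≤ X → X ≤ x →
          (({q : ℕ | 1 ≤ q ∧ (q : ℝ) ≤ X ∧ (∀ d ∈ D, ¬ d ∣ q) ∧ ¬ Regular ε A x q}.ncard : ℕ) : ℝ) ≤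
            X ^ 2 * Real.log x ^ c / x := by
  classical
  obtain ⟨ε', hε'⟩ : ∃ ε', ε' = min ε (1 / 2) := ⟨_, rfl⟩
  have hε0 : 0 < ε' := by rw [hε']; exact lt_min hε (by norm_num)
  obtain ⟨c, N₀', h0⟩ := Pool.Agent.Y883.T4.gold ε' hε0 (ρ / 2) (by linarith) (A + 2)
  obtain ⟨N₀'', h0'⟩ := Pool.Agent.Y883.GJ.gold_every Pool.Agent.Y883.GJ.core_all Pool.Agent.Y883.GJ.model_all
    ε' hε0 (ρ / 2) (by linarith) (A + 2) (T + 1)
  obtain ⟨N₀, hN₀⟩ : ∃ N₀, N₀ = max N₀' N₀'' := ⟨_, rfl⟩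
  obtain ⟨x₁, hx₁⟩ : ∃ x₁ : ℝ, ∀ x : ℝ, x₁ ≤ x → 2 ^ (2 * A + 6) + 2 * 2 ^ T ≤ Real.log x := by
    have h := Real.tendsto_log_atTop.eventually_ge_atTop (2 ^ (2 * A + 6) + 2 * 2 ^ T : ℝ)
    exact Filter.eventually_atTop.1 h
  obtain ⟨x₂, hx₂⟩ : ∃ x₂ : ℝ, ∀ x : ℝ, x₂ ≤ x → 2 ≤ x ^ (ρ / 2) := by
    have h := (tendsto_rpow_atTop (show (0 : ℝ) < ρ / 2 by linarith)).eventually_ge_atTop (2 : ℝ)
    exact Filter.eventually_atTop.1 h
  refine ⟨c + 1, max (max ((N₀ : ℝ) + 4) x₁) x₂, fun x hx => ?_⟩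
  have hxN : (N₀ : ℝ) + 4 ≤ x := (le_max_left _ _).trans ((le_max_left _ _).trans hx)
  have hlx' := hx₁ x ((le_max_right _ _).trans ((le_max_left _ _).trans hx))
  have h2T : (0 : ℝ) < 2 * 2 ^ T := by positivity
  have h2A : (0 : ℝ) < 2 ^ (2 * A + 6) := by positivity
  have hlx : (2 : ℝ) ^ (2 * A + 6) ≤ Real.log x := by linarith
  have hx2 := hx₂ x ((le_max_right _ _).trans hx)
  have hN₀r : (0 : ℝ) ≤ N₀ := Nat.cast_nonneg _
  have hx4 : 4 ≤ x := by linarith
  have hx0 : 0 < x := by linarith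
  obtain ⟨N, hN⟩ : ∃ N, N = ⌊x⌋₊ := ⟨_, rfl⟩
  have hNx : (N : ℝ) ≤ x := by rw [hN]; exact Nat.floor_le hx0.le
  have hxN1 : x < N + 1 := by rw [hN]; exact Nat.lt_floor_add_one x
  have hN0 : (0 : ℝ) < N := by linarith
  have hNN₀ : N₀ ≤ N := by
    rw [hN]
    exact Nat.le_floor (by linarith)
  obtain ⟨l, hl⟩ : ∃ l, l = Real.log x := ⟨_, rfl⟩
  obtain ⟨L, hL⟩ : ∃ L, L = Real.log N := ⟨_, rfl⟩
  have h64 : (64 : ℝ) ≤ 2 ^ (2 * A + 6) := by
    calc (64 : ℝ) = 2 ^ 6 := by norm_num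
      _ ≤ 2 ^ (2 * A + 6) := pow_le_pow_right₀ (by norm_num) (by omega)
  rw [← hl] at hlx hlx'
  have hl64 : 64 ≤ l := by linarith
  have hLl : L ≤ l := by rw [hL, hl]; exact Real.log_le_log hN0 hNx
  have hlL : l / 2 ≤ L := by
    have h1 : x / 2 ≤ N := by linarith
    have h2 : Real.log (x / 2) ≤ L := by rw [hL]; exact Real.log_le_log (by linarith) h1
    rw [Real.log_div hx0.ne' (by norm_num), ← hl] at h2
    have h3 := Real.log_two_lt_d9
    linarith
  have hL0 : 0 < L := by linarith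
  have hl0 : 0 < l := by linarith
  have hpow : 8 * l ^ A ≤ L ^ (A + 2) := by
    have h1 : (l / 2) ^ (A + 2) ≤ L ^ (A + 2) := pow_le_pow_left₀ (by linarith) hlL _
    refine le_trans ?_ h1
    rw [div_pow, le_div_iff₀ (by positivity), pow_add l A 2]
    have h2 : (8 : ℝ) * 2 ^ (A + 2) ≤ l ^ 2 := by
      calc (8 : ℝ) * 2 ^ (A + 2) = 2 ^ (A + 5) := by rw [show A + 5 = 3 + (A + 2) by ring, pow_add 2 3]; norm_num
        _ ≤ 2 ^ (2 * A + 6) := pow_le_pow_right₀ (by norm_num) (by omega)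
        _ ≤ l := hlx
        _ ≤ l ^ 2 := by nlinarith
    calc 8 * l ^ A * 2 ^ (A + 2) = l ^ A * (8 * 2 ^ (A + 2)) := by ring
      _ ≤ l ^ A * l ^ 2 := mul_le_mul_of_nonneg_left h2 (by positivity)
  obtain ⟨D, hD1, hD2, hD3, hD4⟩ := h0 N (by rw [hN₀] at hNN₀; exact (le_max_left _ _).trans hNN₀)
  have hev := h0' N (by rw [hN₀] at hNN₀; exact (le_max_right _ _).trans hNN₀)
  rw [← hL] at hev
  rw [← hL] at hD1
  simp only [← hL] at hD3 hD4
  -- a residue class with few exceptional integers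
  have hfew : ∀ q : ℕ, 1 ≤ q → ∀ a : ℤ, ((Pool.Agent.Y883.T4.badc (Pool.Agent.W93.GB.Good ε') N q
      (a % (q : ℤ)).toNat).card : ℝ) ≤ (N : ℝ) / (q * L ^ (A + 2)) → Few ε A x q a := by
    intro q hq a hcon
    have hq0 : (0 : ℝ) < q := by exact_mod_cast hq
    obtain ⟨a', ha'⟩ : ∃ a', a' = (a % (q : ℤ)).toNat := ⟨_, rfl⟩
    rw [← ha'] at hcon
    obtain ⟨S, hS⟩ : ∃ S, S = Pool.Agent.Y883.T4.badc (Pool.Agent.W93.GB.Good ε') N q a' := ⟨_, rfl⟩
    rw [← hS] at hcon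
    have hsub : exceptional ε x q a ⊆ (S : Set ℕ) := by
      rintro n ⟨a1, a2, a3, a4, a5⟩
      have hn0 : (0 : ℝ) < n := by exact_mod_cast a1
      rw [Finset.mem_coe, hS]
      refine Finset.mem_filter.2 ⟨Finset.mem_Icc.2 ⟨a1, ?_⟩, a3, ?_, ?_⟩
      · rw [hN]; exact Nat.le_floor a2
      · rw [ha']; exact mod_iff n q a hq a4
      · rintro ⟨b1, b2⟩
        apply a5
        refine ⟨b1.trans ?_, ?_, b2⟩
        · apply mul_le_mul_of_nonneg_right _ (HL_nonneg n)
          rw [hε']; exact min_le_left _ _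
        · have h1 : (n : ℝ) / Real.log n ^ 2 ≤ HL n := by
            have h2 := Pool.Agent.W93.GB.one_le_sing n
            have h3 : (0 : ℝ) ≤ (n : ℝ) / Real.log n ^ 2 := by positivity
            unfold Pool.Agent.H560R3.GB.HL
            nlinarith
          have h3 : (0 : ℝ) ≤ (n : ℝ) / Real.log n ^ 2 := by positivity
          have h2 : ε' ≤ 1 / 2 := by rw [hε']; exact min_le_right _ _
          have h4 := (abs_le.1 b1).1
          nlinarith
    have hfin : (exceptional ε x q a).Finite := (Finset.finite_toSet S).subset hsub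
    refine ⟨hfin, ?_⟩
    have h1 : ((exceptional ε x q a).ncard : ℝ) ≤ S.card := by
      have h2 := Set.ncard_le_ncard hsub (Finset.finite_toSet S)
      rw [Set.ncard_coe_finset] at h2
      exact_mod_cast h2
    rw [← hl]
    refine h1.trans (hcon.trans ?_)
    rw [div_le_div_iff₀ (by positivity) (by positivity)]
    have hlA : 0 ≤ l ^ A := by positivity
    calc (N : ℝ) * (q * l ^ A) ≤ x * (q * l ^ A) :=
          mul_le_mul_of_nonneg_right hNx (by positivity)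
      _ = (x * q) * l ^ A := by ring
      _ ≤ (x * q) * L ^ (A + 2) := mul_le_mul_of_nonneg_left (by linarith) (by positivity)
      _ = x * (q * L ^ (A + 2)) := by ring
  have hreg : ∀ q : ℕ, 1 ≤ q → (∀ a : ℕ, ((Pool.Agent.Y883.T4.badc (Pool.Agent.W93.GB.Good ε') N q a).card : ℝ) ≤
      (N : ℝ) / (q * L ^ (A + 2))) → Regular ε A x q := fun q hq hcon a => hfew q hq a (hcon _)
  have hrange' : x ^ (1 / 2 - ρ) ≤ (N : ℝ) ^ (1 / 2 - ρ / 2) := by
    have e1 : x ^ (1 / 2 - ρ / 2) ≤ 2 * (N : ℝ) ^ (1 / 2 - ρ / 2) := by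
      rcases le_or_gt 0 (1 / 2 - ρ / 2) with hc | hc
      · have e2 : x ^ (1 / 2 - ρ / 2) ≤ (2 * N : ℝ) ^ (1 / 2 - ρ / 2) :=
          Real.rpow_le_rpow hx0.le (by linarith) hc
        rw [Real.mul_rpow (by norm_num) hN0.le] at e2
        refine e2.trans (mul_le_mul_of_nonneg_right ?_ (by positivity))
        calc (2 : ℝ) ^ (1 / 2 - ρ / 2) ≤ 2 ^ (1 : ℝ) :=
              Real.rpow_le_rpow_of_exponent_le (by norm_num) (by linarith)
          _ = 2 := Real.rpow_one 2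
      · have e2 : x ^ (1 / 2 - ρ / 2) ≤ (N : ℝ) ^ (1 / 2 - ρ / 2) :=
          Real.rpow_le_rpow_of_nonpos hN0 hNx hc.le
        have e3 : 0 < (N : ℝ) ^ (1 / 2 - ρ / 2) := by positivity
        linarith
    have e2 : x ^ (1 / 2 - ρ / 2) = x ^ (1 / 2 - ρ) * x ^ (ρ / 2) := by
      rw [← Real.rpow_add hx0]; congr 1; ring
    rw [e2] at e1
    have e3 : x ^ (1 / 2 - ρ) * 2 ≤ x ^ (1 / 2 - ρ) * x ^ (ρ / 2) :=
      mul_le_mul_of_nonneg_left hx2 (by positivity)
    linarith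
  have hTT : l ^ T ≤ L ^ (T + 1) := by
    have h1 : l ^ T ≤ (2 * L) ^ T := pow_le_pow_left₀ hl0.le (by linarith) T
    rw [mul_pow] at h1
    refine h1.trans ?_
    rw [pow_succ' L T]
    exact mul_le_mul_of_nonneg_right (by linarith) (by positivity)
  -- the comparison of the ranges
  have hrange : x ^ (2 / 3 - ρ) ≤ (N : ℝ) ^ (2 / 3 - ρ / 2) := by
    have hN1r : (1 : ℝ) ≤ N := by linarith
    have e1 : x ^ (2 / 3 - ρ / 2) ≤ 2 * (N : ℝ) ^ (2 / 3 - ρ / 2) := by
      rcases le_or_gt 0 (2 / 3 - ρ / 2) with hc | hc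
      · have e2 : x ^ (2 / 3 - ρ / 2) ≤ (2 * N : ℝ) ^ (2 / 3 - ρ / 2) :=
          Real.rpow_le_rpow hx0.le (by linarith) hc
        rw [Real.mul_rpow (by norm_num) hN0.le] at e2
        refine e2.trans (mul_le_mul_of_nonneg_right ?_ (by positivity))
        calc (2 : ℝ) ^ (2 / 3 - ρ / 2) ≤ 2 ^ (1 : ℝ) :=
              Real.rpow_le_rpow_of_exponent_le (by norm_num) (by linarith)
          _ = 2 := Real.rpow_one 2
      · have e2 : x ^ (2 / 3 - ρ / 2) ≤ (N : ℝ) ^ (2 / 3 - ρ / 2) :=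
          Real.rpow_le_rpow_of_nonpos hN0 hNx hc.le
        have e3 : 0 < (N : ℝ) ^ (2 / 3 - ρ / 2) := by positivity
        linarith
    have e2 : x ^ (2 / 3 - ρ / 2) = x ^ (2 / 3 - ρ) * x ^ (ρ / 2) := by
      rw [← Real.rpow_add hx0]; congr 1; ring
    rw [e2] at e1
    have e3 : x ^ (2 / 3 - ρ) * 2 ≤ x ^ (2 / 3 - ρ) * x ^ (ρ / 2) :=
      mul_le_mul_of_nonneg_left hx2 (by positivity)
    linarith
  refine ⟨?_, D, ?_, ?_, ?_, ?_⟩
  · intro q hq hqx a ha
    apply hfew q hq a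
    apply hev q hq (hqx.trans hrange')
    have hq0 : (q : ℤ) ≠ 0 := by exact_mod_cast (by omega : q ≠ 0)
    have h1 : Nat.gcd (a % (q : ℤ)).toNat q = Int.gcd a q := by
      have h2 : (((a % (q : ℤ)).toNat : ℕ) : ℤ) = a % q := Int.toNat_of_nonneg (Int.emod_nonneg _ hq0)
      have h3 : Int.gcd (((a % (q : ℤ)).toNat : ℕ) : ℤ) (q : ℤ) = Nat.gcd (a % (q : ℤ)).toNat q := Int.gcd_natCast_natCast _ _
      rw [← h3, h2]
      exact Int.gcd_emod _ _
    rw [h1]
    rw [← hl] at ha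
    exact ha.trans hTT
  · intro d hd
    have h1 := hD1 d hd
    have h2 : 0 ≤ l ^ A := by positivity
    rw [← hl]
    linarith
  · intro y hy
    refine (hD2 y hy).trans ?_
    exact Real.rpow_le_rpow_of_exponent_le hy (by linarith)
  · intro q hq hqx hqD
    exact hreg q hq (hD3 q hq (hqx.trans hrange) hqD)
  · intro X hX1 hXx
    have hX0 : 0 < X := by linarith
    obtain ⟨F, hF⟩ : ∃ F : Finset ℕ, F = (Finset.Icc 1 ⌊X⌋₊).filter (fun q => (∀ d ∈ D, ¬ d ∣ q) ∧
        ∃ a : ℕ, (N : ℝ) / (q * L ^ (A + 2)) < (Pool.Agent.Y883.T4.badc (Pool.Agent.W93.GB.Good ε') N q a).card) := ⟨_, rfl⟩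
    have hsub : {q : ℕ | 1 ≤ q ∧ (q : ℝ) ≤ X ∧ (∀ d ∈ D, ¬ d ∣ q) ∧ ¬ Regular ε A x q} ⊆ (F : Set ℕ) := by
      rintro q ⟨hq, hqX, hqD, hqR⟩
      rw [Finset.mem_coe, hF, Finset.mem_filter, Finset.mem_Icc]
      refine ⟨⟨hq, Nat.le_floor hqX⟩, hqD, ?_⟩
      by_contra hcon
      push Not at hcon
      exact hqR (hreg q hq hcon)
    have h1 : (({q : ℕ | 1 ≤ q ∧ (q : ℝ) ≤ X ∧ (∀ d ∈ D, ¬ d ∣ q) ∧ ¬ Regular ε A x q}.ncard : ℕ) : ℝ) ≤ F.card := by
      have h2 := Set.ncard_le_ncard hsub (Finset.finite_toSet F)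
      rw [Set.ncard_coe_finset] at h2
      exact_mod_cast h2
    have hfl : ⌊X⌋₊ ≤ N := by rw [hN]; exact Nat.floor_le_floor hXx
    have h2 := hD4 ⌊X⌋₊ hfl F (by
      intro q hq
      rw [hF, Finset.mem_filter, Finset.mem_Icc] at hq
      exact ⟨hq.1.1, hq.1.2, hq.2.1, hq.2.2⟩)
    have h3 : ((⌊X⌋₊ : ℕ) : ℝ) ≤ X := Nat.floor_le hX0.le
    have h4 : (F.card : ℝ) * N ≤ X ^ 2 * l ^ c := by
      refine h2.trans ?_
      apply mul_le_mul (pow_le_pow_left₀ (Nat.cast_nonneg _) h3 2) _ (by positivity) (by positivity)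
      exact pow_le_pow_left₀ hL0.le hLl c
    have h5 : (F.card : ℝ) * x ≤ X ^ 2 * l ^ (c + 1) := by
      calc (F.card : ℝ) * x ≤ F.card * (2 * N) := mul_le_mul_of_nonneg_left (by linarith) (Nat.cast_nonneg _)
        _ = 2 * (F.card * N) := by ring
        _ ≤ 2 * (X ^ 2 * l ^ c) := mul_le_mul_of_nonneg_left h4 (by norm_num)
        _ = X ^ 2 * (2 * l ^ c) := by ring
        _ ≤ X ^ 2 * (l * l ^ c) := by
            apply mul_le_mul_of_nonneg_left _ (by positivity)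
            exact mul_le_mul_of_nonneg_right (by linarith) (by positivity)
        _ = X ^ 2 * l ^ (c + 1) := by rw [← pow_succ']
    rw [← hl]
    refine h1.trans ?_
    rw [le_div_iff₀ hx0]
    exact h5

end Pool.Agent.Results.MP_dd84fd_nt.EveryModulus
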