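import Pool.Agent.Y848.UG.GoldS

/-!
# Goldbach: arithmetic progressions of windows all of whose primes `p` have an almost prime `N - p`, for every even `N`

For every `m` there are `δ > 0`, `κ` and `H` such that for all `k`, `A` there is `B` with the following property. For all
large `x` and EVERY even `N` with `2 x ≤ N ≤ x ^ A` there are at least `x / log ^ κ x` integers `n ≤ x` for which there is
a difference `1 ≤ d ≤ log ^ B x` such that the `k` windows `(n + j d, n + j d + log x / (log log x) ^ 2]`, `j < k`, contain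
the same primes up to translation, at least `m` of them, all within `H` of the beginning of the window, and for each
of these primes `p` all prime factors of `N - p` are larger than `x ^ δ`.
-/

set_option autoImplicit false

namespace Pool.Agent.Results.MP_dd84fd_nt.ProgressionsOfWindows

open Finset

/-- There are at least `m` primes in `(n, n + H]`, and every prime `p` with `n < p ≤ n + log x / (log log x) ^ 2` lies in
`(n, n + H]`, and all prime factors of `N - p` are larger than `x ^ δ`. -/
def Window (m H : ℕ) (δ x : ℝ) (N n : ℕ) : Prop :=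
  m ≤ #((Ioc n (n + H)).filter Nat.Prime) ∧ ∀ p : ℕ, p.Prime → n < p →
    (p : ℝ) ≤ n + Real.log x / Real.log (Real.log x) ^ 2 →
      p ≤ n + H ∧ ∀ q : ℕ, q.Prime → q ∣ N - p → x ^ δ < q

open Classical in
theorem result (m : ℕ) : ∃ δ : ℝ, 0 < δ ∧ ∃ κ H : ℕ, ∀ (k : ℕ) (A : ℝ), ∃ B : ℕ, ∀ᶠ x : ℝ in Filter.atTop,
    ∀ N : ℕ, Even N → 2 * x ≤ N → (N : ℝ) ≤ x ^ A →
      x / Real.log x ^ κ ≤ (#((Icc 1 ⌊x⌋₊).filter (fun n => ∃ d : ℕ, 1 ≤ d ∧ (d : ℝ) ≤ Real.log x ^ B ∧
        ∀ j < k, ((n + j * d : ℕ) : ℝ) ≤ x ∧ Window m H δ x N (n + j * d) ∧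
          ∀ t : ℕ, 1 ≤ t → (t : ℝ) ≤ Real.log x / Real.log (Real.log x) ^ 2 →
            ((n + j * d + t).Prime ↔ (n + t).Prime))) : ℝ) :=
  Pool.Agent.Y848.UG.gold_prog m

end Pool.Agent.Results.MP_dd84fd_nt.ProgressionsOfWindows
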