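import Pool.Agent.Y882.Cum

/-!
# Goldbach with a rough second summand: few exceptions

For `0 < u < 1 / 2` and `ε > 0`: for all but `O(X ^ (max 0 (4 u - 1) + ε))` even numbers `n ≤ X`
there are at least `δ ∏_{p ∣ n, p > 2} (p - 1) / (p - 2) * n / (log n) ^ 2` primes `p < n` such that
all prime factors of `n - p` are larger than `n ^ u`.  For `u = 1 / 3` the number `n - p` is a prime
or the product of two primes larger than `n ^ (1 / 3)`, and the number of exceptions is
`O(X ^ (1 / 3 + ε))`.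
-/

set_option autoImplicit false

open Finset

namespace Pool.Agent.Results.MP_dd84fd_nt.RoughSummandFewExceptions

/-- the variable part of the singular series of the Goldbach problem -/
noncomputable def sing (n : ℕ) : ℝ :=
  ∏ p ∈ n.primeFactors.erase 2, (((p : ℝ) - 1) / ((p : ℝ) - 2))

open Classical in
/-- the number of primes `p < n` such that `n - p ≥ 2` and all prime factors of `n - p` are larger
than `n ^ u` -/
noncomputable def roughCount (u : ℝ) (n : ℕ) : ℕ :=
  ((range n).filter (fun p => p.Prime ∧ 2 ≤ n - p ∧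
    ∀ q : ℕ, q.Prime → q ∣ (n - p) → (n : ℝ) ^ u < q)).card

open Classical in
theorem main (u ε : ℝ) (hu : 0 < u) (hu2 : u < 1 / 2) (hε : 0 < ε) :
    ∃ δ C : ℝ, 0 < δ ∧ 0 < C ∧ ∀ X : ℕ, 1 ≤ X →
      (((Icc 1 X).filter (fun n => Even n ∧
        (roughCount u n : ℝ) < δ * sing n * (n / Real.log n ^ 2))).card : ℝ) ≤
      C * (X : ℝ) ^ (max 0 (4 * u - 1) + ε) := by
  obtain ⟨δ, hδ, Y0, H⟩ := Pool.Agent.Y882.dyadic 1 u ε one_pos le_rfl hu hu2 hε
  obtain ⟨C, hC, hcum⟩ := Pool.Agent.Y882.cum (fun n => Even n ∧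
    (roughCount u n : ℝ) < δ / 2 * sing n * (n / Real.log n ^ 2)) (max 0 (4 * u - 1) + ε)
    (by have := le_max_left 0 (4 * u - 1); linarith) (max Y0 3) (by
    intro Y hY
    have hY0 : Y0 ≤ Y := (le_max_left _ _).trans hY
    have hY3 : 3 ≤ Y := (le_max_right _ _).trans hY
    have hYr : (3 : ℝ) ≤ Y := by exact_mod_cast hY3
    have hlY : 0 < Real.log Y := Real.log_pos (by linarith)
    have h1 := H Y hY0 Y (by rw [Real.rpow_one]) le_rfl
      ((Ioc Y (2 * Y)).filter (fun n => Even n ∧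
        (roughCount u n : ℝ) < δ / 2 * sing n * (n / Real.log n ^ 2))) ?_
    · norm_num at h1 ⊢
      exact h1
    · intro n hn
      rw [mem_filter, mem_Ioc] at hn
      obtain ⟨⟨h2, h3⟩, h4, h5⟩ := hn
      refine ⟨h2, h3, h4, ?_⟩
      have h6 : Pool.Agent.Y882.cnt (Y : ℝ) (3 * (Y : ℝ) ^ u) n ≤ roughCount u n := by
        unfold Pool.Agent.Y882.cnt roughCount
        apply card_le_card
        intro p hp
        rw [mem_filter] at hp ⊢
        obtain ⟨-, h8, -, h9, h10⟩ := hp
        have h11 : p < Y := by exact_mod_cast h9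
        refine ⟨mem_range.2 (by omega), h8, by omega, fun q hq hqn => ?_⟩
        refine lt_of_lt_of_le ?_ (h10 q hq hqn)
        have h12 : (n : ℝ) ≤ 2 * Y := by exact_mod_cast h3
        have hYu : (0 : ℝ) < (Y : ℝ) ^ u := by positivity
        calc (n : ℝ) ^ u ≤ (2 * (Y : ℝ)) ^ u := Real.rpow_le_rpow (by positivity) h12 hu.le
          _ = 2 ^ u * (Y : ℝ) ^ u := Real.mul_rpow (by norm_num) (by positivity)
          _ ≤ 2 * (Y : ℝ) ^ u := by
              apply mul_le_mul_of_nonneg_right _ hYu.le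
              calc (2 : ℝ) ^ u ≤ 2 ^ (1 : ℝ) :=
                    Real.rpow_le_rpow_of_exponent_le (by norm_num) (by linarith)
                _ = 2 := Real.rpow_one _
          _ < 3 * (Y : ℝ) ^ u := by linarith
      have h7 : (Pool.Agent.Y882.cnt (Y : ℝ) (3 * (Y : ℝ) ^ u) n : ℝ) ≤ roughCount u n := by
        exact_mod_cast h6
      refine h7.trans_lt (h5.trans_le ?_)
      have hs : Pool.Agent.Y882.sgs n = sing n := rfl
      rw [hs]
      have hs1 : 1 ≤ sing n := by rw [← hs]; exact Pool.Agent.Y882.one_le_sgs n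
      have h12 : (n : ℝ) ≤ 2 * Y := by exact_mod_cast h3
      have h13 : (Y : ℝ) ≤ n := by exact_mod_cast h2.le
      have h14 : Real.log Y ≤ Real.log n := Real.log_le_log (by linarith) h13
      have h15 : (n : ℝ) / Real.log n ^ 2 ≤ 2 * Y / Real.log Y ^ 2 := by
        apply div_le_div₀ (by positivity) h12 (by positivity)
        exact pow_le_pow_left₀ hlY.le h14 2
      calc δ / 2 * sing n * (n / Real.log n ^ 2) ≤ δ / 2 * sing n * (2 * Y / Real.log Y ^ 2) :=
            mul_le_mul_of_nonneg_left h15 (by positivity)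
        _ = δ * Y / Real.log Y ^ 2 * sing n := by ring)
  refine ⟨δ / 2, C, by positivity, hC, ?_⟩
  intro X hX
  exact hcum X hX

open Classical in
/-- For all but `O(X ^ (max 0 (4 u - 1) + ε))` even `n ≤ X` there are `≫ 𝔖(n) n / (log n) ^ 2` primes
`p < n` such that all prime factors of `n - p` are larger than `n ^ u`. -/
theorem result :
    ∀ u ε : ℝ, 0 < u → u < 1 / 2 → 0 < ε → ∃ δ C : ℝ, 0 < δ ∧ 0 < C ∧ ∀ X : ℕ, 1 ≤ X →
      (((Icc 1 X).filter (fun n => Even n ∧
        (roughCount u n : ℝ) < δ * sing n * (n / Real.log n ^ 2))).card : ℝ) ≤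
      C * (X : ℝ) ^ (max 0 (4 * u - 1) + ε) :=
  main

end Pool.Agent.Results.MP_dd84fd_nt.RoughSummandFewExceptions
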